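import Mathlib
import Pool.Agent.H11.Fr

namespace Pool.Agent.Results.MP_74778d_co.Balanced

open Matrix Complex

/-- `y` is the orthogonal projection `E_θ x` of `x` onto the `θ`-eigenspace of `A`. -/
def IsProj {V : Type} [Fintype V] (A : Matrix V V ℝ) (θ : ℝ) (x y : V → ℝ) : Prop :=
  A *ᵥ y = θ • y ∧ ∀ w, A *ᵥ w = θ • w → w ⬝ᵥ (x - y) = 0

/-- `(E_θ)_{aa} = (E_θ)_{bb}` for every `θ`. -/
def Cospectral {V : Type} [Fintype V] [DecidableEq V] (A : Matrix V V ℝ) (a b : V) : Prop :=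
  ∀ (θ : ℝ) (x y : V → ℝ), IsProj A θ (Pi.single a 1) x → IsProj A θ (Pi.single b 1) y →
    x a = y b

theorem result : ∃ (V : Type) (_ : Fintype V) (_ : DecidableEq V) (G : SimpleGraph V)
    (_ : DecidableRel G.Adj) (a b : V), a ≠ b ∧ ¬ Cospectral (G.adjMatrix ℝ) a b ∧
      ∃ (τ : ℝ) (α β : ℂ), 0 < τ ∧ ‖α‖ = 1 / √2 ∧ ‖β‖ = 1 / √2 ∧
        NormedSpace.exp ((I * τ) • G.adjMatrix ℂ) *ᵥ Pi.single a 1 =
          α • (Pi.single a 1 : V → ℂ) + β • (Pi.single b 1 : V → ℂ) := by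
  obtain ⟨V, i1, i2, G, i3, a, y, hab, h1, h2, h3, h4⟩ := Pool.Agent.H11.Fr.main
  have rr : √2 * √2 = 2 := Real.mul_self_sqrt (by norm_num)
  have r0 : 0 < √2 := by positivity
  have pr : ∀ s, IsProj (G.adjMatrix ℝ) (Pool.Agent.H11.Fr.θ 2) (Pi.single (a s) 1) (y s 2) :=
    fun s => ⟨h1 s 2, fun w hw => h2 s ▸
      Pool.Agent.H11.Fr.comp _ G.transpose_adjMatrix (y s) (h1 s) 2 w hw⟩
  have nm : ∀ t, ‖exp (I * Pool.Agent.H11.Fr.τ * 560) * -I * (√2 : ℝ) *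
      (Pool.Agent.H11.Fr.TT 0 t : ℂ)‖ = 1 / √2 := by
    intro t
    have e : (Pool.Agent.H11.Fr.TT 0 t : ℂ) = 1 / 2 := by
      fin_cases t <;> simp [Pool.Agent.H11.Fr.TT]
    rw [e, norm_mul, norm_mul, norm_mul, norm_exp, norm_neg, norm_I, norm_real,
      Real.norm_of_nonneg r0.le]
    simp only [mul_re, mul_im, I_re, I_im, ofReal_re, ofReal_im, re_ofNat, im_ofNat]
    norm_num
    field_simp
    linarith
  refine ⟨V, i1, i2, G, i3, a 0, a 1, hab, fun h => ?_, _, _, _, Pool.Agent.H11.Fr.τ_pos,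
    nm 0, nm 1, h4 0⟩
  have e := h _ _ _ (pr 0) (pr 1)
  rw [h3, h3] at e
  have v : Pool.Agent.H11.Fr.PP 0 2 (Pool.Agent.H11.Fr.cc 0) = 1 / 32 ∧
      Pool.Agent.H11.Fr.QQ 0 2 (Pool.Agent.H11.Fr.cc 0) = -1 / 64 ∧
      Pool.Agent.H11.Fr.PP 1 2 (Pool.Agent.H11.Fr.cc 1) = 5 / 32 ∧
      Pool.Agent.H11.Fr.QQ 1 2 (Pool.Agent.H11.Fr.cc 1) = -7 / 64 := by decide +kernel
  rw [v.1, v.2.1, v.2.2.1, v.2.2.2] at e
  push_cast at e
  have : √2 = 4 / 3 := by linarith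
  rw [this] at rr
  norm_num at rr

end Pool.Agent.Results.MP_74778d_co.Balanced
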